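import Pool.Agent.Helper107.AR9
import Pool.Agent.Helper107.ARB1
import Pool.Agent.Helper107.ARB2
import Pool.Agent.Helper107.ARB3
import Pool.Agent.Helper107.ARB4
import Pool.Agent.Helper107.ARc

set_option autoImplicit false
open Filter Topology MeasureTheory
open Pool.Agent.Helper107.AR

namespace Pool.Agent.Results.MP_055a27_an.TwoSidedConditions

/-- A sufficient and two necessary conditions for (star). Every weight of superexponential growth
satisfies (star) and is not in `A_∞`; every weight that satisfies (star) satisfies a quantitative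
absolute continuity condition with a logarithm and the tail exponent `p`; no integrable weight except
zero satisfies (star). -/
theorem result :
    (∀ U : ℝ → ℝ, LocallyIntegrable U → (∀ x, 0 ≤ U x) →
      (∀ c : ℝ, ∃ R : ℝ, ∀ r : ℝ, R ≤ r → Real.exp (c * r) ≤ ∫ x in Set.Icc (-r) r, U x) →
      (∀ lam b p : ℝ, 0 < lam → 0 < b → 1 < p → Star lam b p U) ∧ ¬ AInfty U) ∧
    (LocallyIntegrable (fun x : ℝ => Real.exp (x ^ 2)) ∧
      (∀ c : ℝ, ∃ R : ℝ, ∀ r : ℝ, R ≤ r →
        Real.exp (c * r) ≤ ∫ x in Set.Icc (-r) r, Real.exp (x ^ 2))) ∧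
    (∀ U : ℝ → ℝ, LocallyIntegrable U → (∀ x, 0 ≤ U x) →
      ∀ lam b p : ℝ, 0 < lam → 0 < b → 1 < p → Star lam b p U →
      ∃ K : ℝ, 0 < K ∧ ∀ x0 r R : ℝ, 0 < r → r ≤ R →
        ENNReal.ofReal (Real.log (R / r) ^ (p / 2)) *
            ∫⁻ x in Set.Icc (x0 - r) (x0 + r), ENNReal.ofReal (U x) ≤
          ENNReal.ofReal K * ∫⁻ x, ENNReal.ofReal ((R / (R + |x - x0|)) ^ p * U x)) ∧
    (∀ U : ℝ → ℝ, Integrable U → (∀ x, 0 ≤ U x) →
      ∀ lam b p : ℝ, 0 < lam → 0 < b → 1 < p → Star lam b p U → U =ᵐ[volume] 0) := by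
  have hpoi : ∀ a b z y : ℝ, a ≤ b → 0 < y →
      poi (Set.indicator (Set.Ioc a b) (fun _ => (1:ℝ))) z y =
      1 / Real.pi * (Real.arctan ((z - a) / y) - Real.arctan ((z - b) / y)) :=
    fun a b z y hab hy => poi_ind a b z y hab hy
  have hnec : ∀ U : ℝ → ℝ, LocallyIntegrable U → (∀ x, 0 ≤ U x) →
      ∀ lam b p : ℝ, 0 < lam → 0 < b → 1 < p → Star lam b p U →
      ∃ K : ℝ, 0 < K ∧ ∀ x0 r R : ℝ, 0 < r → r ≤ R →
        ENNReal.ofReal (Real.log (R / r) ^ (p / 2)) *
            ∫⁻ x in Set.Icc (x0 - r) (x0 + r), ENNReal.ofReal (U x) ≤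
          ENNReal.ofReal K * ∫⁻ x, ENNReal.ofReal ((R / (R + |x - x0|)) ^ p * U x) :=
    fun U hU hU0 lam b p hl hb hp hs =>
      necessary lam b p hl hb (by linarith) (ntm_ind b hb hpoi) (area_ind lam hl hpoi) U hU hU0 hs
  refine ⟨fun U hU hU0 hg => ⟨fun lam b p _ hb hp =>
    star_of_growth lam b p hb (by linarith) U hU hU0 hg, not_AInfty U hU hU0 hg⟩,
    ⟨?_, growth_example⟩, hnec, ?_⟩
  · have hcont : Continuous (fun x : ℝ => Real.exp (x ^ 2)) := by fun_prop
    exact hcont.locallyIntegrable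
  · intro U hi hU0 lam b p hl hb hp hs
    obtain ⟨K, _, h⟩ := hnec U hi.locallyIntegrable hU0 lam b p hl hb hp hs
    exact integrable_zero p (by linarith) U hU0 hi K h

end Pool.Agent.Results.MP_055a27_an.TwoSidedConditions
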